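import Pool.Agent.W659.FD.Stm

/-!
Project FD, task LINE: from one variable to `n` variables by averaging over the lines in a fixed
direction.
-/

set_option autoImplicit false

open MvPolynomial

namespace W327.FD

open Pool.Agent.W659.FD

section filt

variable {F : Type} [Field F] {n : ℕ}

theorem degree_eq (m : Fin n →₀ ℕ) : (m.sum fun _ e => e) = m.degree := rfl

theorem filt_iff (q : Polynomial (MvPolynomial (Fin n) F)) (N : ℕ) :
    Filt q N ↔ ∀ j, ∀ m ∈ (q.coeff j).support, m.degree + j ≤ N := by
  constructor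
  · intro h j m hm
    rcases h j with h0 | h0
    · rw [h0] at hm; simp at hm
    · have := le_totalDegree hm
      rw [degree_eq] at this
      omega
  · intro h j
    by_cases h0 : q.coeff j = 0
    · exact Or.inl h0
    · right
      obtain ⟨m, hm, he⟩ := Finset.exists_mem_eq_sup (q.coeff j).support
        (support_nonempty.2 h0) (fun m => m.sum fun _ e => e)
      have e : (q.coeff j).totalDegree = m.degree := he
      rw [e]
      exact h j m hm

theorem filt_mono {q : Polynomial (MvPolynomial (Fin n) F)} {N M : ℕ} (h : Filt q N)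
    (hNM : N ≤ M) : Filt q M := by
  intro j
  rcases h j with h0 | h0
  · exact Or.inl h0
  · right; omega

theorem filt_zero (N : ℕ) : Filt (0 : Polynomial (MvPolynomial (Fin n) F)) N := by
  intro j; left; simp

theorem filt_one : Filt (1 : Polynomial (MvPolynomial (Fin n) F)) 0 := by
  intro j
  rw [Polynomial.coeff_one]
  by_cases h : j = 0
  · right; simp [h]
  · left; rw [if_neg h]

theorem filt_add {a b : Polynomial (MvPolynomial (Fin n) F)} {N : ℕ} (ha : Filt a N)
    (hb : Filt b N) : Filt (a + b) N := by
  rw [filt_iff] at *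
  intro j m hm
  rw [Polynomial.coeff_add] at hm
  classical
  rcases Finset.mem_union.1 (support_add hm) with h | h
  · exact ha j m h
  · exact hb j m h

theorem filt_sum {ι : Type} (s : Finset ι) (f : ι → Polynomial (MvPolynomial (Fin n) F)) {N : ℕ}
    (h : ∀ i ∈ s, Filt (f i) N) : Filt (∑ i ∈ s, f i) N := by
  classical
  induction s using Finset.induction_on with
  | empty => simpa using filt_zero N
  | insert i s hi ih =>
    rw [Finset.sum_insert hi]
    exact filt_add (h i (Finset.mem_insert_self i s))
      (ih fun k hk => h k (Finset.mem_insert_of_mem hk))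

theorem filt_mul {a b : Polynomial (MvPolynomial (Fin n) F)} {N M : ℕ} (ha : Filt a N)
    (hb : Filt b M) : Filt (a * b) (N + M) := by
  classical
  rw [filt_iff] at *
  intro j m hm
  rw [Polynomial.coeff_mul] at hm
  have h1 := MvPolynomial.support_sum hm
  rw [Finset.mem_biUnion] at h1
  obtain ⟨⟨x, y⟩, hxy, h2⟩ := h1
  rw [Finset.HasAntidiagonal.mem_antidiagonal] at hxy
  have h3 := MvPolynomial.support_mul _ _ h2
  rw [Finset.mem_add] at h3
  obtain ⟨m1, hm1, m2, hm2, rfl⟩ := h3
  have h4 := ha x m1 hm1
  have h5 := hb y m2 hm2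
  rw [map_add]
  simp only at hxy
  omega

theorem filt_CC (c : F) : Filt (Polynomial.C (C c : MvPolynomial (Fin n) F)) 0 := by
  intro j
  rw [Polynomial.coeff_C]
  by_cases h : j = 0
  · right; simp [h]
  · left; rw [if_neg h]

theorem filt_CX (i : Fin n) : Filt (Polynomial.C (X i : MvPolynomial (Fin n) F)) 1 := by
  intro j
  rw [Polynomial.coeff_C]
  by_cases h : j = 0
  · right; simp [h]
  · left; rw [if_neg h]

theorem filt_X : Filt (Polynomial.X : Polynomial (MvPolynomial (Fin n) F)) 1 := by
  intro j
  rw [Polynomial.coeff_X]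
  by_cases h : 1 = j
  · right; simp [← h]
  · left; rw [if_neg h]

theorem filt_coeff_zero {q : Polynomial (MvPolynomial (Fin n) F)} {N j : ℕ} (h : Filt q N)
    (hj : N < j) : q.coeff j = 0 := by
  rcases h j with h0 | h0
  · exact h0
  · omega

end filt

section lin

variable {F : Type} [Field F] {n : ℕ}

/-- `f(a + s v)` as a polynomial in `s` with coefficients in `F[a]` -/
noncomputable def lin (v : Fin n → F) :
    MvPolynomial (Fin n) F →ₐ[F] Polynomial (MvPolynomial (Fin n) F) :=
  aeval (fun i => Polynomial.C (X i) + Polynomial.C (C (v i)) * Polynomial.X)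

theorem lin_X (v : Fin n → F) (i : Fin n) :
    lin v (X i) = Polynomial.C (X i) + Polynomial.C (C (v i)) * Polynomial.X := by
  simp [lin]

theorem lin_C (v : Fin n → F) (c : F) : lin v (C c) = Polynomial.C (C c) := by
  rw [lin, aeval_C]; rfl

theorem lin_eval (v a : Fin n → F) (s : F) (f : MvPolynomial (Fin n) F) :
    ((lin v f).map (eval a)).eval s = eval (fun i => a i + s * v i) f := by
  have h : ((Polynomial.evalRingHom s).comp ((Polynomial.mapRingHom (eval a)).comp
      (lin v : MvPolynomial (Fin n) F →+* Polynomial (MvPolynomial (Fin n) F)))) =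
      eval (fun i => a i + s * v i) := by
    apply MvPolynomial.ringHom_ext
    · intro r
      simp
    · intro i
      simp [lin_X]; ring
  exact RingHom.congr_fun h f

theorem lin_coeff_zero (v : Fin n → F) (f : MvPolynomial (Fin n) F) : (lin v f).coeff 0 = f := by
  have h : (Polynomial.constantCoeff.comp
      (lin v : MvPolynomial (Fin n) F →+* Polynomial (MvPolynomial (Fin n) F))) = RingHom.id _ := by
    apply MvPolynomial.ringHom_ext
    · intro r
      simp
    · intro i
      simp [lin_X]
  exact RingHom.congr_fun h f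

theorem lin_mon (v : Fin n → F) (m : Fin n →₀ ℕ) : Filt (lin v (monomial m 1)) m.degree ∧
    (lin v (monomial m 1)).coeff m.degree = C (eval v (monomial m 1)) := by
  induction m using Finsupp.induction_linear with
  | zero =>
    have e : (monomial (0 : Fin n →₀ ℕ) (1 : F)) = 1 := rfl
    rw [e, map_one, map_zero]
    exact ⟨filt_one, by simp⟩
  | add f g hf hg =>
    have e : (monomial (f + g) (1 : F)) = monomial f 1 * monomial g 1 := by
      rw [monomial_mul, one_mul]
    rw [e, map_mul, map_add, map_mul, map_mul]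
    refine ⟨filt_mul hf.1 hg.1, ?_⟩
    rw [Polynomial.coeff_mul, Finset.sum_eq_single (f.degree, g.degree)]
    · rw [hf.2, hg.2]
    · rintro ⟨x, y⟩ hxy hne
      rw [Finset.HasAntidiagonal.mem_antidiagonal] at hxy
      simp only at hxy ⊢
      rcases lt_trichotomy x f.degree with h | h | h
      · rw [filt_coeff_zero hg.1 (by omega), mul_zero]
      · exfalso; apply hne; subst h; congr 1; omega
      · rw [filt_coeff_zero hf.1 h, zero_mul]
    · intro h
      exact absurd (Finset.HasAntidiagonal.mem_antidiagonal.2 (by rfl)) h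
  | single i k =>
    induction k with
    | zero =>
      rw [Finsupp.single_zero]
      have e : (monomial (0 : Fin n →₀ ℕ) (1 : F)) = 1 := rfl
      rw [e, map_one, map_zero]
      exact ⟨filt_one, by simp⟩
    | succ k ih =>
      have e : (monomial (Finsupp.single i (k + 1)) (1 : F)) = monomial (Finsupp.single i k) 1 * X i := by
        rw [X, monomial_mul, one_mul, ← Finsupp.single_add]
      rw [Finsupp.degree_single] at ih ⊢
      rw [e, map_mul, map_mul, map_mul, lin_X, eval_X]
      have hX : Filt (Polynomial.C (X i) + Polynomial.C (C (v i)) * Polynomial.X :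
          Polynomial (MvPolynomial (Fin n) F)) 1 := by
        refine filt_add (filt_CX i) ?_
        have := filt_mul (filt_CC (n := n) (v i)) (filt_X (F := F) (n := n))
        rwa [zero_add] at this
      refine ⟨filt_mul ih.1 hX, ?_⟩
      rw [mul_add, Polynomial.coeff_add, Polynomial.coeff_mul_C, filt_coeff_zero ih.1 (Nat.lt_succ_self k),
        zero_mul, zero_add, ← mul_assoc, Polynomial.coeff_mul_X, Polynomial.coeff_mul_C, ih.2]

theorem lin_filt (v : Fin n → F) (f : MvPolynomial (Fin n) F) {N : ℕ} (h : f.totalDegree ≤ N) :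
    Filt (lin v f) N ∧ (lin v f).coeff N = C (eval v (homogeneousComponent N f)) := by
  have e : lin v f = ∑ m ∈ f.support, Polynomial.C (C (coeff m f)) * lin v (monomial m 1) := by
    conv_lhs => rw [f.as_sum]
    rw [map_sum]
    refine Finset.sum_congr rfl fun m _ => ?_
    rw [← lin_C v, ← map_mul, C_mul_monomial, mul_one]
  have hd : ∀ m ∈ f.support, m.degree ≤ N := fun m hm => (le_totalDegree hm).trans h
  constructor
  · rw [e]
    refine filt_sum _ _ fun m hm => ?_
    have := filt_mul (filt_CC (coeff m f)) (lin_mon v m).1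
    exact filt_mono this (by rw [zero_add]; exact hd m hm)
  · rw [e, Polynomial.finsetSum_coeff, homogeneousComponent_apply, map_sum, map_sum,
      Finset.sum_filter]
    refine Finset.sum_congr rfl fun m hm => ?_
    rw [Polynomial.coeff_C_mul]
    by_cases hm' : m.degree = N
    · rw [if_pos hm', ← hm', (lin_mon v m).2, ← C_mul]
      congr 1
      rw [← smul_eval, smul_monomial, smul_eq_mul, mul_one]
    · rw [if_neg hm', filt_coeff_zero (lin_mon v m).1 (lt_of_le_of_ne (hd m hm) hm'), mul_zero]

end lin

section bad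

variable {F : Type} [Field F] {n : ℕ}

/-- the product of two polynomials of degree `e`, one of which is monic up to a nonzero factor -/
theorem sq_eq_of_lt {h g : Polynomial F} {e : ℕ} (h2 : (2 : F) ≠ 0) (hh : h.Monic) (hg : g.Monic)
    (hhe : h.natDegree = e) (hge : g.natDegree = e) (hr : ∀ j, e ≤ j → (h ^ 2 - g ^ 2).coeff j = 0) :
    h ^ 2 - g ^ 2 = 0 := by
  have hs : (h + g).natDegree = e := by
    apply le_antisymm
    · refine (Polynomial.natDegree_add_le _ _).trans ?_
      rw [hhe, hge, max_self]
    · apply Polynomial.le_natDegree_of_ne_zero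
      rw [Polynomial.coeff_add]
      have e1 : h.coeff e = 1 := by rw [← hhe]; exact hh
      have e2 : g.coeff e = 1 := by rw [← hge]; exact hg
      rw [e1, e2, one_add_one_eq_two]
      exact h2
  by_contra hne
  have e3 : h ^ 2 - g ^ 2 = (h - g) * (h + g) := by ring
  have e4 : h - g ≠ 0 := by
    intro h0; apply hne; rw [e3, h0, zero_mul]
  have e5 : h + g ≠ 0 := by
    intro h0; apply hne; rw [e3, h0, mul_zero]
  have e6 : (h ^ 2 - g ^ 2).natDegree = (h - g).natDegree + e := by
    rw [e3, Polynomial.natDegree_mul e4 e5, hs]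
  have e7 := hr (h ^ 2 - g ^ 2).natDegree (by omega)
  have e8 : (h ^ 2 - g ^ 2).leadingCoeff = 0 := e7
  rw [Polynomial.leadingCoeff_eq_zero] at e8
  exact hne e8

/-- there is a nonzero polynomial of degree at most `D` which vanishes at all bad points -/
theorem exists_bad (hA : S_APP) (h2 : (2 : F) ≠ 0) (f : MvPolynomial (Fin n) F)
    (hf : ∀ (c : F) (g : MvPolynomial (Fin n) F), f ≠ C c * g ^ 2) (v : Fin n → F)
    (hv : eval v (homogeneousComponent f.totalDegree f) ≠ 0) :
    ∃ R : MvPolynomial (Fin n) F, R ≠ 0 ∧ R.totalDegree ≤ f.totalDegree ∧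
      ∀ a : Fin n → F, (∃ (c : F) (h : Polynomial F), (lin v f).map (eval a) = Polynomial.C c * h ^ 2) →
        eval a R = 0 := by
  obtain ⟨hF, hL⟩ := lin_filt v f le_rfl
  set δ := f.totalDegree with hδ
  set lam := eval v (homogeneousComponent δ f) with hlam
  -- the polynomials in one variable
  have hnat : ∀ a : Fin n → F, ((lin v f).map (eval a)).natDegree = δ ∧
      ((lin v f).map (eval a)).coeff δ = lam := by
    intro a
    have e1 : ((lin v f).map (eval a)).coeff δ = lam := by
      rw [Polynomial.coeff_map, hL, eval_C]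
    refine ⟨?_, e1⟩
    apply le_antisymm
    · rw [Polynomial.natDegree_le_iff_coeff_eq_zero]
      intro j hj
      rw [Polynomial.coeff_map, filt_coeff_zero hF hj, map_zero]
    · apply Polynomial.le_natDegree_of_ne_zero
      rw [e1]; exact hv
  have hc0 : ∀ (a : Fin n → F) (c : F) (h : Polynomial F),
      (lin v f).map (eval a) = Polynomial.C c * h ^ 2 → c ≠ 0 ∧ h ≠ 0 ∧ 2 * h.natDegree = δ ∧
        c * h.leadingCoeff ^ 2 = lam := by
    intro a c h hch
    have hne : (lin v f).map (eval a) ≠ 0 := by
      intro h0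
      have := (hnat a).2
      rw [h0, Polynomial.coeff_zero] at this
      exact hv this.symm
    have hc : c ≠ 0 := by
      rintro rfl; apply hne; rw [hch]; simp
    have hh : h ≠ 0 := by
      rintro rfl; apply hne; rw [hch]; simp
    have h3 : 2 * h.natDegree = δ := by
      rw [← (hnat a).1, hch, Polynomial.natDegree_C_mul hc, Polynomial.natDegree_pow]
    refine ⟨hc, hh, h3, ?_⟩
    have h4 := (hnat a).2
    rw [← (hnat a).1] at h4
    change ((lin v f).map (eval a)).leadingCoeff = lam at h4
    rw [hch, Polynomial.leadingCoeff_mul, Polynomial.leadingCoeff_C, Polynomial.leadingCoeff_pow] at h4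
    exact h4
  rcases Nat.even_or_odd' δ with ⟨e, he | he⟩
  · -- even degree
    have hQc : (Polynomial.C (C lam⁻¹) * lin v f : Polynomial (MvPolynomial (Fin n) F)).coeff (2 * e) = 1 := by
      rw [Polynomial.coeff_C_mul, ← he, hL, ← C_mul, inv_mul_cancel₀ hv, C_1]
    have hQF : Filt (Polynomial.C (C lam⁻¹) * lin v f : Polynomial (MvPolynomial (Fin n) F)) (2 * e) := by
      have := filt_mul (filt_CC (n := n) lam⁻¹) hF
      rwa [zero_add, he] at this
    have hQd : (Polynomial.C (C lam⁻¹) * lin v f : Polynomial (MvPolynomial (Fin n) F)).natDegree = 2 * e := by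
      apply le_antisymm
      · rw [Polynomial.natDegree_le_iff_coeff_eq_zero]
        intro j hj
        exact filt_coeff_zero hQF hj
      · apply Polynomial.le_natDegree_of_ne_zero
        rw [hQc]; exact one_ne_zero
    have hQm : (Polynomial.C (C lam⁻¹) * lin v f : Polynomial (MvPolynomial (Fin n) F)).Monic := by
      unfold Polynomial.Monic Polynomial.leadingCoeff
      rw [hQd, hQc]
    obtain ⟨g, hgm, hge, hgF, hrF, hr⟩ := hA F h2 n _ e hQm hQd hQF
    set Q := (Polynomial.C (C lam⁻¹) * lin v f : Polynomial (MvPolynomial (Fin n) F)) with hQ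
    have hrne : Q - g ^ 2 ≠ 0 := by
      intro h0
      have h1 : lin v f = Polynomial.C (C lam) * g ^ 2 := by
        rw [sub_eq_zero] at h0
        rw [← h0, hQ, ← mul_assoc, ← Polynomial.C_mul, ← C_mul, mul_inv_cancel₀ hv, C_1,
          Polynomial.C_1, one_mul]
      have h3 := congrArg (fun q => Polynomial.coeff q 0) h1
      simp only [lin_coeff_zero, Polynomial.coeff_C_mul] at h3
      rw [sq, Polynomial.mul_coeff_zero, ← sq] at h3
      exact hf _ _ h3
    obtain ⟨j, hj⟩ : ∃ j, (Q - g ^ 2).coeff j ≠ 0 := by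
      by_contra hcon
      push Not at hcon
      exact hrne (Polynomial.ext fun j => by rw [hcon j, Polynomial.coeff_zero])
    refine ⟨(Q - g ^ 2).coeff j, hj, ?_, ?_⟩
    · rcases hrF j with h | h
      · exact absurd h hj
      · omega
    · rintro a ⟨c, h, hch⟩
      obtain ⟨hc, hh, h3, h4⟩ := hc0 a c h hch
      have hlh : h.leadingCoeff ≠ 0 := Polynomial.leadingCoeff_ne_zero.2 hh
      have hm1 : (Polynomial.C h.leadingCoeff⁻¹ * h).Monic := by
        unfold Polynomial.Monic
        rw [Polynomial.leadingCoeff_mul, Polynomial.leadingCoeff_C, inv_mul_cancel₀ hlh]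
      have hd1 : (Polynomial.C h.leadingCoeff⁻¹ * h).natDegree = e := by
        rw [Polynomial.natDegree_C_mul (inv_ne_zero hlh)]; omega
      have hm2 : (g.map (eval a)).Monic := hgm.map _
      have hd2 : (g.map (eval a)).natDegree = e := by rw [hgm.natDegree_map, hge]
      have hsq : (Polynomial.C h.leadingCoeff⁻¹ * h) ^ 2 = Q.map (eval a) := by
        rw [hQ, Polynomial.map_mul, Polynomial.map_C, eval_C, hch, mul_pow, ← mul_assoc,
          ← Polynomial.C_mul, ← Polynomial.C_pow, ← h4]
        congr 2
        field_simp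
      have hdiff : (Polynomial.C h.leadingCoeff⁻¹ * h) ^ 2 - (g.map (eval a)) ^ 2 =
          (Q - g ^ 2).map (eval a) := by
        rw [hsq, Polynomial.map_sub, Polynomial.map_pow]
      have hzero := sq_eq_of_lt h2 hm1 hm2 hd1 hd2 (by
        intro j hj
        rw [hdiff, Polynomial.coeff_map, hr j hj, map_zero])
      rw [hdiff] at hzero
      rw [← Polynomial.coeff_map, hzero, Polynomial.coeff_zero]
  · -- odd degree
    refine ⟨1, one_ne_zero, by rw [totalDegree_one]; omega, ?_⟩
    rintro a ⟨c, h, hch⟩
    have := (hc0 a c h hch).2.2.1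
    omega

end bad

theorem zeros_le {p : ℕ} [Fact p.Prime] {n : ℕ} {R : MvPolynomial (Fin n) (ZMod p)} (hR : R ≠ 0)
    {D : ℕ} (hD : R.totalDegree ≤ D) :
    (((Finset.univ.filter fun a : Fin n → ZMod p => eval a R = 0).card : ℕ) : ℝ) * p ≤
      D * (p : ℝ) ^ n := by
  have h := schwartz_zippel_totalDegree hR (Finset.univ : Finset (ZMod p))
  have hp : 0 < p := (Fact.out : p.Prime).pos
  have hp' : (0 : ℚ≥0) < (p : ℚ≥0) := by exact_mod_cast hp
  rw [Fintype.piFinset_univ, Finset.card_univ, ZMod.card, div_le_div_iff₀ (by positivity) hp'] at h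
  have h1 : (Finset.univ.filter fun a : Fin n → ZMod p => eval a R = 0).card * p ≤
      R.totalDegree * p ^ n := by exact_mod_cast h
  have h2 : (Finset.univ.filter fun a : Fin n → ZMod p => eval a R = 0).card * p ≤ D * p ^ n :=
    h1.trans (Nat.mul_le_mul_right _ hD)
  exact_mod_cast h2

theorem top_ne {F : Type} [Field F] {n : ℕ} {f : MvPolynomial (Fin n) F} (hf : f ≠ 0) :
    homogeneousComponent f.totalDegree f ≠ 0 := by
  obtain ⟨m, hm, he⟩ := Finset.exists_mem_eq_sup f.support
    (support_nonempty.2 hf) (fun m => m.sum fun _ e => e)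
  intro h0
  have h1 := congrArg (coeff m) h0
  have e : m.degree = f.totalDegree := he.symm
  rw [coeff_homogeneousComponent, if_pos e, coeff_zero] at h1
  exact (mem_support_iff.1 hm) h1

theorem main : S_LINE := by
  classical
  intro hU hA n D hn
  obtain ⟨K, hK, hKp⟩ := hU D
  refine ⟨Nat.ceil (64 * K ^ 2) + 8 * D + 3, ?_⟩
  intro p _ hp f hfD hf
  have hp2 : 2 < p := by omega
  have hp0 : (0 : ℝ) < p := by exact_mod_cast (show 0 < p by omega)
  have h2 : (2 : ZMod p) ≠ 0 := by
    have : ((2 : ℕ) : ZMod p) ≠ 0 := by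
      rw [Ne, ZMod.natCast_eq_zero_iff]
      intro h
      exact absurd (Nat.le_of_dvd (by norm_num) h) (by omega)
    exact_mod_cast this
  have hfne : f ≠ 0 := fun h => hf 0 1 (by rw [h]; simp)
  have htop := top_ne hfne
  obtain ⟨v, hv⟩ : ∃ v : Fin n → ZMod p, eval v (homogeneousComponent f.totalDegree f) ≠ 0 := by
    by_contra hcon
    push Not at hcon
    have h1 := zeros_le htop (D := D)
      ((homogeneousComponent_isHomogeneous f.totalDegree f).totalDegree_le.trans hfD)
    have h3 : (Finset.univ.filter fun a : Fin n → ZMod p =>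
        eval a (homogeneousComponent f.totalDegree f) = 0) = Finset.univ := by
      apply Finset.filter_true_of_mem
      intro a _; exact hcon a
    rw [h3, Finset.card_univ, Fintype.card_fun, Fintype.card_fin, ZMod.card] at h1
    push_cast at h1
    have h4 : (0 : ℝ) < (p : ℝ) ^ n := by positivity
    have h5 : (p : ℝ) ≤ D := by
      have : (p : ℝ) ^ n * p ≤ (p : ℝ) ^ n * D := by linarith
      exact le_of_mul_le_mul_left this h4
    have h6 : p ≤ D := by exact_mod_cast h5
    omega
  obtain ⟨R, hR, hRD, hbad⟩ := exists_bad hA h2 f hf v hv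
  have hz := zeros_le hR (hRD.trans hfD)
  set S := Finset.univ.filter (fun t : Fin n → ZMod p => ∃ w, w ^ 2 = eval t f) with hSdef
  have hS : (Sq f).ncard = S.card := by
    rw [← Set.ncard_coe_finset]
    congr 1
    ext t
    simp [Sq, hSdef]
  have hdc : (∑ a : Fin n → ZMod p, (Finset.univ.filter fun s : ZMod p =>
      (fun i => a i + s * v i) ∈ S).card) = p * S.card := by
    have e1 : ∀ a : Fin n → ZMod p, (Finset.univ.filter fun s : ZMod p =>
      (fun i => a i + s * v i) ∈ S).card = ∑ s : ZMod p, if (fun i => a i + s * v i) ∈ S then 1 else 0 := by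
      intro a; rw [Finset.card_filter]
    rw [Finset.sum_congr rfl fun a _ => e1 a, Finset.sum_comm]
    have e2 : ∀ s : ZMod p, (∑ a : Fin n → ZMod p, if (fun i => a i + s * v i) ∈ S then 1 else 0) =
        S.card := by
      intro s
      have e3 := Equiv.sum_comp (Equiv.addRight (fun i => s * v i : Fin n → ZMod p))
        (fun a : Fin n → ZMod p => if a ∈ S then 1 else 0)
      rw [Finset.sum_ite_mem, Finset.univ_inter, Finset.sum_const, smul_eq_mul, mul_one] at e3
      rw [← e3]
      rfl
    rw [Finset.sum_congr rfl fun s _ => e2 s, Finset.sum_const, Finset.card_univ, ZMod.card,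
      smul_eq_mul]
  have hline : ∀ a : Fin n → ZMod p, (((Finset.univ.filter fun s : ZMod p =>
      (fun i => a i + s * v i) ∈ S).card : ℕ) : ℝ) ≤ (p / 2 + K * Real.sqrt p) +
        (if eval a R = 0 then (p : ℝ) else 0) := by
    intro a
    by_cases ha : eval a R = 0
    · rw [if_pos ha]
      have h3 : (Finset.univ.filter fun s : ZMod p => (fun i => a i + s * v i) ∈ S).card ≤ p := by
        refine (Finset.card_le_univ _).trans ?_
        rw [ZMod.card]
      have h4 : (((Finset.univ.filter fun s : ZMod p =>
        (fun i => a i + s * v i) ∈ S).card : ℕ) : ℝ) ≤ p := by exact_mod_cast h3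
      have h5 : 0 ≤ p / 2 + K * Real.sqrt p := by positivity
      linarith
    · rw [if_neg ha, add_zero]
      have h3 : ((lin v f).map (eval a)).natDegree ≤ D := by
        rw [Polynomial.natDegree_le_iff_coeff_eq_zero]
        intro j hj
        rw [Polynomial.coeff_map, filt_coeff_zero (lin_filt v f hfD).1 hj, map_zero]
      have h4 := hKp p hp2 ((lin v f).map (eval a)) h3 (by
        intro c h hch
        exact ha (hbad a ⟨c, h, hch⟩))
      have h5 : ({x : ZMod p | ∃ w : ZMod p, w ^ 2 = ((lin v f).map (eval a)).eval x}).ncard =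
          (Finset.univ.filter fun s : ZMod p => (fun i => a i + s * v i) ∈ S).card := by
        rw [← Set.ncard_coe_finset]
        congr 1
        ext s
        simp only [Set.mem_ofPred_eq, Finset.coe_filter, Finset.mem_univ, true_and, hSdef,
          Finset.mem_filter, lin_eval]
      rw [← h5]
      exact h4
  have hsum : (p : ℝ) * S.card ≤ (p : ℝ) ^ n * (p / 2 + K * Real.sqrt p) + D * (p : ℝ) ^ n := by
    have h3 : (p : ℝ) * S.card = ∑ a : Fin n → ZMod p, (((Finset.univ.filter fun s : ZMod p =>
      (fun i => a i + s * v i) ∈ S).card : ℕ) : ℝ) := by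
      rw [← Nat.cast_sum, hdc]; push_cast; ring
    rw [h3]
    refine (Finset.sum_le_sum fun a _ => hline a).trans ?_
    rw [Finset.sum_add_distrib, Finset.sum_const, Finset.card_univ, Fintype.card_fun,
      Fintype.card_fin, ZMod.card, nsmul_eq_mul, Nat.cast_pow, Finset.sum_ite, Finset.sum_const,
      Finset.sum_const_zero, nsmul_eq_mul, add_zero]
    linarith
  rw [hS]
  have hpc : 64 * K ^ 2 ≤ p := by
    have h3 := Nat.le_ceil (64 * K ^ 2)
    have h4 : ((Nat.ceil (64 * K ^ 2) : ℕ) : ℝ) ≤ p := by
      exact_mod_cast (show Nat.ceil (64 * K ^ 2) ≤ p by omega)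
    linarith
  have hpd : 8 * (D : ℝ) ≤ p := by exact_mod_cast (show 8 * D ≤ p by omega)
  have hKs : K * Real.sqrt p ≤ p / 8 := by
    have h3 : 8 * K ≤ Real.sqrt p := by
      apply Real.le_sqrt_of_sq_le
      nlinarith
    have h4 : Real.sqrt p * Real.sqrt p = p := Real.mul_self_sqrt hp0.le
    nlinarith [Real.sqrt_nonneg (p : ℝ)]
  have hpn : (0 : ℝ) < (p : ℝ) ^ n := by positivity
  have h3 : (p : ℝ) * S.card ≤ p * (3 / 4 * (p : ℝ) ^ n) := by
    refine hsum.trans ?_
    nlinarith [mul_le_mul_of_nonneg_left hKs hpn.le, mul_le_mul_of_nonneg_left hpd hpn.le]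
  exact le_of_mul_le_mul_left h3 hp0

end W327.FD
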